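import Pool.Agent.GenP.Mert
import Pool.Agent.GenF.Defs

/-!
Windows of prime ideals: the hypothesis `HMert` holds for the ring of integers of a number field.
-/

set_option autoImplicit false

namespace Pool.Agent.GenP

open Finset NumberField Filter Topology

theorem ph_tendsto (K : Type*) [Field K] [NumberField K] :
    Tendsto (fun x : ℝ => ph K x / Real.log x) atTop (𝓝 1) := by
  rw [tendsto_order]
  constructor
  · intro a ha
    have hε : 0 < min 1 ((1 - a) / 2) := lt_min one_pos (by linarith)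
    filter_upwards [lo K hε (min_le_left _ _), eventually_gt_atTop 1] with x hx h1
    have hl : 0 < Real.log x := Real.log_pos h1
    rw [lt_div_iff₀ hl]
    have h2 : min 1 ((1 - a) / 2) ≤ (1 - a) / 2 := min_le_right _ _
    nlinarith
  · intro a ha
    have hε : 0 < min 1 ((a - 1) / 2) := lt_min one_pos (by linarith)
    filter_upwards [up K hε (min_le_left _ _), eventually_gt_atTop 1] with x hx h1
    have hl : 0 < Real.log x := Real.log_pos h1
    rw [div_lt_iff₀ hl]
    have h2 : min 1 ((a - 1) / 2) ≤ (a - 1) / 2 := min_le_right _ _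
    nlinarith

open Pool.Agent.GenF in
/-- Mertens' theorem on windows, for the ring of integers of a number field -/
theorem hMert (K : Type) [Field K] [NumberField K] : HMert (𝓞 K) := by
  intro a b ha hab
  have hb : 0 < b := ha.trans hab
  set ε : ℝ := min 1 ((b - a) / (2 * (a + b))) with hε
  have hε0 : 0 < ε := lt_min one_pos (div_pos (by linarith) (by linarith))
  have hε2 : ε * (a + b) ≤ (b - a) / 2 := by
    have h1 : ε ≤ (b - a) / (2 * (a + b)) := min_le_right _ _
    rw [le_div_iff₀ (by linarith)] at h1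
    linarith
  have hlo := (tendsto_rpow_atTop hb).eventually (lo K hε0 (min_le_left _ _))
  have hup := (tendsto_rpow_atTop ha).eventually (up K hε0 (min_le_left _ _))
  filter_upwards [hlo, hup, eventually_gt_atTop 1] with x h1 h2 h3
  have hx0 : 0 < x := by linarith
  have hl : 0 < Real.log x := Real.log_pos h3
  rw [Real.log_rpow hx0] at h1 h2
  have h4 : (b - a) / 2 * Real.log x ≤ ph K (x ^ b) - ph K (x ^ a) := by
    nlinarith
  have hsub : x ^ a ≤ x ^ b := Real.rpow_le_rpow_of_exponent_le h3.le hab.le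
  classical
  have h5 : ph K (x ^ b) - ph K (x ^ a) =
      ∑ l ∈ P K (x ^ b) \ P K (x ^ a), Real.log (Ideal.absNorm l) / (Ideal.absNorm l : ℝ) := by
    unfold ph
    rw [← sum_sdiff (P_mono hsub)]
    ring
  have h6 : P K (x ^ b) \ P K (x ^ a) ⊆ wnd (𝓞 K) (x ^ a) (x ^ b) := by
    intro l hl
    have hl1 := mem_P.1 (Finset.mem_sdiff.1 hl).1
    have hl2 := (Finset.mem_sdiff.1 hl).2
    unfold wnd
    rw [mem_filter, Set.Finite.mem_toFinset]
    refine ⟨?_, hl1.2.2, ?_, hl1.2.1⟩
    · show Ideal.absNorm l ≤ ⌊x ^ b⌋₊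
      exact Nat.le_floor hl1.2.1
    · by_contra hcon
      exact hl2 (mem_P.2 ⟨hl1.1, not_lt.1 hcon, hl1.2.2⟩)
  have h7 : ∑ l ∈ P K (x ^ b) \ P K (x ^ a), Real.log (Ideal.absNorm l) / (Ideal.absNorm l : ℝ) ≤
      (b * Real.log x) * ∑ l ∈ wnd (𝓞 K) (x ^ a) (x ^ b), (1 : ℝ) / (Ideal.absNorm l : ℝ) := by
    rw [mul_sum]
    refine le_trans (sum_le_sum ?_) (sum_le_sum_of_subset_of_nonneg h6 ?_)
    · intro l hl
      have hl1 := mem_P.1 (Finset.mem_sdiff.1 hl).1
      have hN : (1 : ℝ) ≤ (Ideal.absNorm l : ℝ) := by exact_mod_cast nm_pos hl1.1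
      rw [mul_one_div]
      apply div_le_div_of_nonneg_right _ (by linarith)
      rw [← Real.log_rpow hx0]
      exact Real.log_le_log (by linarith) hl1.2.1
    · intro l _ _
      positivity
  have h8 : (b - a) / 2 * Real.log x ≤
      (b * Real.log x) * ∑ l ∈ wnd (𝓞 K) (x ^ a) (x ^ b), (1 : ℝ) / (Ideal.absNorm l : ℝ) := by
    linarith
  rw [div_le_iff₀ (by linarith)]
  have h9 : Real.log x * (b - a) ≤ Real.log x *
      ((∑ l ∈ wnd (𝓞 K) (x ^ a) (x ^ b), (1 : ℝ) / (Ideal.absNorm l : ℝ)) * (2 * b)) := by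
    linarith
  exact le_of_mul_le_mul_left h9 hl

end Pool.Agent.GenP
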