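import Mathlib

/-!
Prime ideals of a number field on the logarithmic scale: definitions and counting.
-/

set_option autoImplicit false

namespace Pool.Agent.GenP

open Finset NumberField

variable (K : Type*) [Field K] [NumberField K]

open Classical in
/-- nonzero ideals of norm at most `x` -/
noncomputable def S (x : ℝ) : Finset (Ideal (𝓞 K)) :=
  (Ideal.finite_setOfPred_absNorm_le (S := 𝓞 K) ⌊x⌋₊).toFinset.filter fun a => a ≠ ⊥

open Classical in
/-- nonzero prime ideals of norm at most `x` -/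
noncomputable def P (x : ℝ) : Finset (Ideal (𝓞 K)) := (S K x).filter fun l => l.IsPrime

/-- number of nonzero ideals of norm at most `x` -/
noncomputable def cnt (x : ℝ) : ℝ := ((S K x).card : ℝ)

/-- Mertens' sum -/
noncomputable def ph (x : ℝ) : ℝ :=
  ∑ l ∈ P K x, Real.log (Ideal.absNorm l) / (Ideal.absNorm l : ℝ)

variable {K}

theorem mem_S {x : ℝ} {a : Ideal (𝓞 K)} : a ∈ S K x ↔ a ≠ ⊥ ∧ (Ideal.absNorm a : ℝ) ≤ x := by
  unfold S
  rw [mem_filter, Set.Finite.mem_toFinset]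
  constructor
  · rintro ⟨h1, h2⟩
    refine ⟨h2, ?_⟩
    have h3 : Ideal.absNorm a ≤ ⌊x⌋₊ := h1
    have h4 : Ideal.absNorm a ≠ 0 := by
      rw [Ne, Ideal.absNorm_eq_zero_iff]; exact h2
    rcases le_or_gt 0 x with hx | hx
    · exact (Nat.le_floor_iff hx).1 h3
    · exfalso
      rw [Nat.floor_of_nonpos hx.le] at h3
      omega
  · rintro ⟨h1, h2⟩
    refine ⟨?_, h1⟩
    show Ideal.absNorm a ≤ ⌊x⌋₊
    exact Nat.le_floor h2

theorem mem_P {x : ℝ} {a : Ideal (𝓞 K)} :
    a ∈ P K x ↔ a ≠ ⊥ ∧ (Ideal.absNorm a : ℝ) ≤ x ∧ a.IsPrime := by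
  classical
  unfold P
  simp only [mem_filter, mem_S, and_assoc]

theorem nm_pos {a : Ideal (𝓞 K)} (ha : a ≠ ⊥) : 1 ≤ Ideal.absNorm a := by
  have : Ideal.absNorm a ≠ 0 := by
    rw [Ne, Ideal.absNorm_eq_zero_iff]; exact ha
  omega

theorem nm_two {a : Ideal (𝓞 K)} (ha : a ≠ ⊥) (hp : a.IsPrime) : 2 ≤ Ideal.absNorm a := by
  have h1 := nm_pos ha
  have h2 : Ideal.absNorm a ≠ 1 := by
    intro h
    rw [Ideal.absNorm_eq_one_iff] at h
    exact hp.ne_top h
  omega

theorem S_mono {x y : ℝ} (h : x ≤ y) : S K x ⊆ S K y := by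
  intro a ha
  rw [mem_S] at *
  exact ⟨ha.1, ha.2.trans h⟩

theorem P_mono {x y : ℝ} (h : x ≤ y) : P K x ⊆ P K y := by
  intro a ha
  rw [mem_P] at *
  exact ⟨ha.1, ha.2.1.trans h, ha.2.2⟩

theorem cnt_nonneg (x : ℝ) : 0 ≤ cnt K x := by unfold cnt; positivity

theorem cnt_mono {x y : ℝ} (h : x ≤ y) : cnt K x ≤ cnt K y := by
  unfold cnt
  exact_mod_cast card_le_card (S_mono h)

theorem cnt_zero {x : ℝ} (h : x < 1) : cnt K x = 0 := by
  unfold cnt
  have : S K x = ∅ := by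
    apply eq_empty_of_forall_notMem
    intro a ha
    rw [mem_S] at ha
    have h1 : (1 : ℝ) ≤ (Ideal.absNorm a : ℝ) := by exact_mod_cast nm_pos ha.1
    linarith [ha.2]
  rw [this]; simp

/-- the ideals of norm at most `x` divisible by `m` -/
theorem card_dvd {m : Ideal (𝓞 K)} (hm : m ≠ ⊥) (x : ℝ) :
    open Classical in
    (((S K x).filter fun a => m ∣ a).card : ℝ) = cnt K (x / (Ideal.absNorm m : ℝ)) := by
  classical
  unfold cnt
  congr 1
  have hm0 : (0 : ℝ) < (Ideal.absNorm m : ℝ) := by exact_mod_cast nm_pos hm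
  symm
  refine Finset.card_bij (fun b _ => m * b) ?_ ?_ ?_
  · intro b hb
    rw [mem_S] at hb
    rw [mem_filter, mem_S]
    refine ⟨⟨?_, ?_⟩, dvd_mul_right _ _⟩
    · intro h
      rcases (mul_eq_zero (M₀ := Ideal (𝓞 K))).1 h with h | h
      · exact hm h
      · exact hb.1 h
    · rw [map_mul]
      push_cast
      have := (le_div_iff₀ hm0).1 hb.2
      linarith
  · intro b _ c _ h
    exact mul_left_cancel₀ (M₀ := Ideal (𝓞 K)) hm h
  · intro a ha
    rw [mem_filter, mem_S] at ha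
    obtain ⟨⟨h1, h2⟩, c, hc⟩ := ha
    refine ⟨c, ?_, hc.symm⟩
    rw [mem_S]
    refine ⟨?_, ?_⟩
    · rintro rfl
      apply h1
      rw [hc]
      exact mul_zero (M₀ := Ideal (𝓞 K)) m
    · rw [le_div_iff₀ hm0]
      rw [hc, map_mul] at h2
      push_cast at h2
      linarith

theorem natCard_eq (x : ℝ) :
    Nat.card {I : nonZeroDivisors (Ideal (𝓞 K)) // (Ideal.absNorm (I : Ideal (𝓞 K)) : ℝ) ≤ x} =
      (S K x).card := by
  rw [← Nat.card_eq_finsetCard]
  refine Nat.card_congr ⟨fun I => ⟨(I.1 : Ideal (𝓞 K)), ?_⟩, fun a => ⟨⟨a.1, ?_⟩, ?_⟩, ?_, ?_⟩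
  · rw [mem_S]
    exact ⟨nonZeroDivisors.coe_ne_zero I.1, I.2⟩
  · have := (mem_S.1 a.2).1
    exact mem_nonZeroDivisors_of_ne_zero this
  · exact (mem_S.1 a.2).2
  · intro I; rfl
  · intro a; rfl

open Filter Topology in
theorem cnt_tendsto (K : Type*) [Field K] [NumberField K] :
    ∃ κ : ℝ, 0 < κ ∧ Tendsto (fun x : ℝ => cnt K x / x) atTop (𝓝 κ) := by
  refine ⟨_, ?_, (NumberField.Ideal.tendsto_norm_le_div_atTop₀ K).congr ?_⟩
  · have h1 : 0 < Units.regulator K := Units.regulator_pos K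
    have h2 : 0 < classNumber K := by
      unfold classNumber; exact Fintype.card_pos
    have h3 : 0 < Units.torsionOrder K := Units.torsionOrder_pos K
    have h4 : (0 : ℝ) < Real.sqrt |(discr K : ℝ)| := by
      apply Real.sqrt_pos.2
      rw [abs_pos]
      exact_mod_cast discr_ne_zero K
    have := Real.pi_pos
    positivity
  · intro x
    congr 1
    unfold cnt
    norm_cast
    exact natCard_eq x

end Pool.Agent.GenP
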