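import Pool.Agent.GenP.Fac

/-!
Upper bounds for sums over prime ideals, from Chebyshev's bound for rational primes.
-/

set_option autoImplicit false

namespace Pool.Agent.GenP

open Finset NumberField

variable {K : Type*} [Field K] [NumberField K]

/-- the rational primes in `(0, x]` -/
noncomputable def rp (x : ℝ) : Finset ℕ := (Ioc 0 ⌊x⌋₊).filter Nat.Prime

theorem mem_rp {x : ℝ} {p : ℕ} : p ∈ rp x ↔ p.Prime ∧ (p : ℝ) ≤ x := by
  unfold rp
  rw [mem_filter, mem_Ioc]
  constructor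
  · rintro ⟨⟨h1, h2⟩, h3⟩
    refine ⟨h3, ?_⟩
    rcases le_or_gt 0 x with hx | hx
    · exact (Nat.le_floor_iff hx).1 h2
    · rw [Nat.floor_of_nonpos hx.le] at h2
      omega
  · rintro ⟨h1, h2⟩
    exact ⟨⟨h1.pos, Nat.le_floor h2⟩, h1⟩

theorem theta_eq (x : ℝ) : ∑ p ∈ rp x, Real.log p = Chebyshev.theta x := rfl

theorem sum_union_le (A B : Finset ℕ) :
    ∑ p ∈ A ∪ B, Real.log p / (p : ℝ) ≤
      ∑ p ∈ A, Real.log p / (p : ℝ) + ∑ p ∈ B, Real.log p / (p : ℝ) := by
  rw [← sum_union_inter]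
  have : 0 ≤ ∑ p ∈ A ∩ B, Real.log p / (p : ℝ) := by
    apply sum_nonneg
    intro p _
    have := Real.log_natCast_nonneg p
    positivity
  linarith

/-- primes in a dyadic interval -/
theorem dyadic {y : ℝ} (hy : 1 ≤ y) :
    ∑ p ∈ (rp (2 * y)).filter (fun p : ℕ => y < (p : ℝ)), Real.log p / (p : ℝ) ≤ 2 * Real.log 4 := by
  have h1 : ∑ p ∈ (rp (2 * y)).filter (fun p : ℕ => y < (p : ℝ)), Real.log p / (p : ℝ) ≤
      ∑ p ∈ rp (2 * y), Real.log p / y := by
    refine le_trans ?_ (sum_le_sum_of_subset_of_nonneg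
      (filter_subset (fun p : ℕ => y < (p : ℝ)) (rp (2 * y))) ?_)
    · apply sum_le_sum
      intro p hp
      rw [mem_filter] at hp
      apply div_le_div_of_nonneg_left (Real.log_natCast_nonneg _) (by linarith) hp.2.le
    · intro p _ _
      have := Real.log_natCast_nonneg p
      positivity
  rw [← sum_div, theta_eq] at h1
  have h2 := Chebyshev.theta_le_log4_mul_x (x := 2 * y) (by linarith)
  calc _ ≤ Chebyshev.theta (2 * y) / y := h1
    _ ≤ (Real.log 4 * (2 * y)) / y := by gcongr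
    _ = 2 * Real.log 4 := by field_simp

theorem dyadics {y : ℝ} (hy : 1 ≤ y) (k : ℕ) :
    ∑ p ∈ (rp (2 ^ k * y)).filter (fun p : ℕ => y < (p : ℝ)), Real.log p / (p : ℝ) ≤
      k * (2 * Real.log 4) := by
  induction k with
  | zero =>
    rw [sum_eq_zero]
    · simp
    · intro p hp
      rw [mem_filter, mem_rp] at hp
      exfalso
      have := hp.1.2
      rw [pow_zero, one_mul] at this
      linarith [hp.2]
  | succ k ih =>
    have h1 : (rp (2 ^ (k + 1) * y)).filter (fun p : ℕ => y < (p : ℝ)) ⊆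
        (rp (2 ^ k * y)).filter (fun p : ℕ => y < (p : ℝ)) ∪
          (rp (2 * (2 ^ k * y))).filter (fun p : ℕ => 2 ^ k * y < (p : ℝ)) := by
      intro p hp
      rw [mem_filter, mem_rp] at hp
      rw [mem_union, mem_filter, mem_filter, mem_rp, mem_rp]
      rcases le_or_gt (p : ℝ) (2 ^ k * y) with h | h
      · left; exact ⟨⟨hp.1.1, h⟩, hp.2⟩
      · right
        refine ⟨⟨hp.1.1, ?_⟩, h⟩
        have := hp.1.2
        rw [pow_succ] at this
        linarith
    have h2 : (1 : ℝ) ≤ 2 ^ k * y := by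
      have : (1 : ℝ) ≤ 2 ^ k := one_le_pow₀ (by norm_num)
      nlinarith
    calc _ ≤ _ := sum_le_sum_of_subset_of_nonneg h1 (fun p _ _ => by
            have := Real.log_natCast_nonneg p
            positivity)
      _ ≤ _ + _ := sum_union_le _ _
      _ ≤ k * (2 * Real.log 4) + 2 * Real.log 4 := add_le_add ih (dyadic h2)
      _ = _ := by push_cast; ring

/-- Chebyshev's bound for a long interval -/
theorem interval {y x : ℝ} (hy : 1 ≤ y) (hyx : y ≤ x) :
    ∑ p ∈ (rp x).filter (fun p : ℕ => y < (p : ℝ)), Real.log p / (p : ℝ) ≤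
      8 * (Real.log (x / y) + 1) := by
  set k := ⌈Real.log (x / y) / Real.log 2⌉₊ with hk
  have hl2 : 0 < Real.log 2 := Real.log_pos (by norm_num)
  have h0 : 0 ≤ Real.log (x / y) := by
    apply Real.log_nonneg
    rw [le_div_iff₀ (by linarith)]
    linarith
  have h1 : Real.log (x / y) ≤ k * Real.log 2 := by
    have := Nat.le_ceil (Real.log (x / y) / Real.log 2)
    rw [div_le_iff₀ hl2] at this
    exact this
  have h2 : (k : ℝ) < Real.log (x / y) / Real.log 2 + 1 := Nat.ceil_lt_add_one (by positivity)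
  have hxy : 0 < x / y := by
    apply div_pos <;> linarith
  have h3 : x ≤ 2 ^ k * y := by
    have h4 : x / y ≤ 2 ^ k := by
      rw [← Real.log_le_log_iff hxy (by positivity), Real.log_pow]
      exact h1
    rw [div_le_iff₀ (by linarith)] at h4
    exact h4
  have h5 : (rp x).filter (fun p : ℕ => y < (p : ℝ)) ⊆
      (rp (2 ^ k * y)).filter (fun p : ℕ => y < (p : ℝ)) := by
    intro p hp
    rw [mem_filter, mem_rp] at *
    exact ⟨⟨hp.1.1, hp.1.2.trans h3⟩, hp.2⟩
  have h6 : Real.log 4 = 2 * Real.log 2 := by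
    rw [show (4 : ℝ) = 2 ^ 2 by norm_num, Real.log_pow]; norm_num
  have h7 : Real.log 2 < 1 := by
    have := Real.log_two_lt_d9; linarith
  calc _ ≤ _ := sum_le_sum_of_subset_of_nonneg h5 (fun p _ _ => by
            have := Real.log_natCast_nonneg p
            positivity)
    _ ≤ k * (2 * Real.log 4) := dyadics hy k
    _ ≤ (Real.log (x / y) / Real.log 2 + 1) * (4 * Real.log 2) := by
        rw [h6]
        nlinarith
    _ = 4 * Real.log (x / y) + 4 * Real.log 2 := by field_simp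
    _ ≤ _ := by nlinarith

/-- `∑ log m / m ^ 2` converges -/
theorem log_sq : ∃ C : ℝ, 0 ≤ C ∧ ∀ A : Finset ℕ, ∑ m ∈ A, Real.log m / (m : ℝ) ^ 2 ≤ C := by
  have h1 : Summable fun m : ℕ => 2 * (1 / (m : ℝ) ^ (3 / 2 : ℝ)) :=
    (Real.summable_one_div_nat_rpow.2 (by norm_num)).mul_left 2
  refine ⟨∑' m : ℕ, 2 * (1 / (m : ℝ) ^ (3 / 2 : ℝ)), tsum_nonneg fun m => by positivity, ?_⟩
  intro A
  refine le_trans (sum_le_sum ?_) (h1.sum_le_tsum A fun m _ => by positivity)
  intro m _
  rcases Nat.eq_zero_or_pos m with rfl | hm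
  · simp
  · have hm0 : (0 : ℝ) < m := by exact_mod_cast hm
    have h2 : Real.log m ≤ (m : ℝ) ^ (1 / 2 : ℝ) / (1 / 2) :=
      Real.log_le_rpow_div hm0.le (by norm_num)
    have h3 : (m : ℝ) ^ 2 = (m : ℝ) ^ (1 / 2 : ℝ) * (m : ℝ) ^ (3 / 2 : ℝ) := by
      rw [← Real.rpow_add hm0]
      norm_num
    rw [div_le_iff₀ (by positivity)]
    calc Real.log m ≤ (m : ℝ) ^ (1 / 2 : ℝ) / (1 / 2) := h2
      _ = 2 * (m : ℝ) ^ (1 / 2 : ℝ) := by ring
      _ = _ := by
        rw [h3]
        field_simp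

/-- the rational prime below a prime ideal -/
theorem exists_under {l : Ideal (𝓞 K)} (hl : l ≠ ⊥) (hp : l.IsPrime) :
    ∃ p : ℕ, p.Prime ∧ l ∣ Ideal.span {(p : 𝓞 K)} ∧ ∃ f : ℕ, 1 ≤ f ∧ Ideal.absNorm l = p ^ f := by
  have h1 : ((Ideal.absNorm l : ℕ) : 𝓞 K) ∈ l := Ideal.absNorm_mem l
  have h2 : ∃ p : ℕ, p.Prime ∧ (p : 𝓞 K) ∈ l := by
    have hn := nm_two hl hp
    generalize Ideal.absNorm l = m at h1 hn
    induction m using Nat.strong_induction_on with
    | _ m ih =>
      obtain ⟨p, hpp, c, hc⟩ := Nat.exists_prime_and_dvd (n := m) (by omega)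
      rw [hc] at h1
      push_cast at h1
      rcases hp.mem_or_mem h1 with h | h
      · exact ⟨p, hpp, h⟩
      · have hc1 : c < m := by
          rw [hc]
          have := hpp.two_le
          have hc0 : 0 < c := by
            rcases Nat.eq_zero_or_pos c with rfl | h0
            · omega
            · exact h0
          nlinarith
        rcases Nat.lt_or_ge c 2 with h3 | h3
        · exfalso
          interval_cases c
          · omega
          · apply hp.ne_top
            rw [Ideal.eq_top_iff_one]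
            simpa using h
        · exact ih c hc1 h h3
  obtain ⟨p, hpp, hpm⟩ := h2
  have h3 : l ∣ Ideal.span {(p : 𝓞 K)} := by
    rw [Ideal.dvd_span_singleton]; exact hpm
  refine ⟨p, hpp, h3, ?_⟩
  have h4 := map_dvd Ideal.absNorm h3
  rw [Ideal.absNorm_span_singleton, Algebra.norm_natCast, Int.natAbs_pow, Int.natAbs_natCast,
    Nat.dvd_prime_pow hpp] at h4
  obtain ⟨f, _, hf⟩ := h4
  refine ⟨f, ?_, hf⟩
  rcases Nat.eq_zero_or_pos f with rfl | h0
  · have := nm_two hl hp
    rw [hf] at this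
    simp at this
  · exact h0

end Pool.Agent.GenP
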