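import Pool.Agent.GenP.Base

/-!
Bounds for the number of ideals, and the two factorisation inequalities for the sum of the
logarithms of the norms.
-/

set_option autoImplicit false

namespace Pool.Agent.GenP

open Finset NumberField

variable {K : Type*} [Field K] [NumberField K]

theorem cnt_le (K : Type*) [Field K] [NumberField K] :
    ∃ C : ℝ, 1 ≤ C ∧ ∀ x : ℝ, 0 ≤ x → cnt K x ≤ C * x := by
  obtain ⟨κ, hκ, h⟩ := cnt_tendsto K
  have h1 : ∀ᶠ x : ℝ in Filter.atTop, cnt K x / x ≤ κ + 1 :=
    (h.eventually (gt_mem_nhds (lt_add_one κ))).mono fun x hx => hx.le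
  obtain ⟨X, hX⟩ := Filter.eventually_atTop.1 h1
  refine ⟨κ + 1 + cnt K X, ?_, ?_⟩
  · have := cnt_nonneg (K := K) X
    linarith
  · intro x hx
    rcases lt_or_ge x 1 with h2 | h2
    · rw [cnt_zero h2]
      have := cnt_nonneg (K := K) X
      positivity
    · rcases le_or_gt X x with h3 | h3
      · have h4 := hX x h3
        rw [div_le_iff₀ (by linarith)] at h4
        have := cnt_nonneg (K := K) X
        nlinarith
      · have h4 : cnt K x ≤ cnt K X := cnt_mono h3.le
        have := cnt_nonneg (K := K) X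
        nlinarith

open Classical in
/-- the primes dividing `a` -/
theorem log_ge {a : Ideal (𝓞 K)} (ha : a ≠ ⊥) (y : ℝ) :
    ∑ l ∈ (P K y).filter (fun l => l ∣ a), Real.log (Ideal.absNorm l) ≤
      Real.log (Ideal.absNorm a) := by
  have h1 : (∏ l ∈ (P K y).filter (fun l => l ∣ a), l) ∣ a := by
    apply Finset.prod_primes_dvd
    · intro l hl
      rw [mem_filter, mem_P] at hl
      exact (Ideal.prime_iff_isPrime hl.1.1).2 hl.1.2.2
    · intro l hl
      rw [mem_filter] at hl
      exact hl.2
  have h2 : Ideal.absNorm (∏ l ∈ (P K y).filter (fun l => l ∣ a), l) ∣ Ideal.absNorm a :=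
    map_dvd _ h1
  have h3 := Nat.le_of_dvd (nm_pos ha) h2
  rw [map_prod] at h3
  rw [← Real.log_prod]
  · apply Real.log_le_log
    · apply prod_pos
      intro l hl
      rw [mem_filter, mem_P] at hl
      exact_mod_cast nm_pos hl.1.1
    · exact_mod_cast h3
  · intro l hl
    rw [mem_filter, mem_P] at hl
    have := nm_pos hl.1.1
    positivity

/-- `∑ log N a` over all ideals, from below -/
theorem sum_log_ge (x y : ℝ) :
    ∑ l ∈ P K y, Real.log (Ideal.absNorm l) * cnt K (x / (Ideal.absNorm l : ℝ)) ≤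
      ∑ a ∈ S K x, Real.log (Ideal.absNorm a) := by
  classical
  calc ∑ l ∈ P K y, Real.log (Ideal.absNorm l) * cnt K (x / (Ideal.absNorm l : ℝ))
      = ∑ l ∈ P K y, ∑ a ∈ S K x, if l ∣ a then Real.log (Ideal.absNorm l) else 0 := by
        apply sum_congr rfl
        intro l hl
        rw [mem_P] at hl
        rw [← card_dvd hl.1 x, ← sum_filter, sum_const, nsmul_eq_mul, mul_comm]
    _ = ∑ a ∈ S K x, ∑ l ∈ P K y, if l ∣ a then Real.log (Ideal.absNorm l) else 0 := sum_comm
    _ ≤ ∑ a ∈ S K x, Real.log (Ideal.absNorm a) := by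
        apply sum_le_sum
        intro a ha
        rw [mem_S] at ha
        rw [← sum_filter]
        convert log_ge ha.1 y

open Classical in
/-- the prime powers dividing `a` -/
theorem log_le {a : Ideal (𝓞 K)} (ha : a ≠ ⊥) (x : ℝ) (hx : (Ideal.absNorm a : ℝ) ≤ x) (J : ℕ)
    (hJ : x < 2 ^ (J + 1)) :
    Real.log (Ideal.absNorm a) ≤
      ∑ l ∈ P K x, ∑ j ∈ Icc 1 J, if l ^ j ∣ a then Real.log (Ideal.absNorm l) else 0 := by
  set F := UniqueFactorizationMonoid.normalizedFactors a with hF
  have hprod : F.prod = a := by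
    have := UniqueFactorizationMonoid.prod_normalizedFactors (α := Ideal (𝓞 K)) ha
    exact associated_iff_eq.1 this
  have hmem : ∀ l ∈ F.toFinset, l ≠ ⊥ ∧ l.IsPrime ∧ l ∣ a := by
    intro l hl
    rw [Multiset.mem_toFinset] at hl
    have h1 := UniqueFactorizationMonoid.prime_of_normalized_factor l hl
    refine ⟨h1.ne_zero, Ideal.isPrime_of_prime h1, ?_⟩
    exact UniqueFactorizationMonoid.dvd_of_mem_normalizedFactors hl
  have h1 : ∏ l ∈ F.toFinset, l ^ F.count l = a := by
    rw [← Finset.prod_multiset_count, hprod]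
  have h2 : Real.log (Ideal.absNorm a) =
      ∑ l ∈ F.toFinset, (F.count l : ℝ) * Real.log (Ideal.absNorm l) := by
    conv_lhs => rw [← h1]
    rw [map_prod]
    push_cast
    rw [Real.log_prod]
    · apply sum_congr rfl
      intro l _
      rw [map_pow]
      push_cast
      rw [Real.log_pow]
    · intro l hl
      have := nm_pos (hmem l hl).1
      rw [map_pow]
      push_cast
      positivity
  rw [h2]
  have hsub : F.toFinset ⊆ P K x := by
    intro l hl
    obtain ⟨h3, h4, h5⟩ := hmem l hl
    rw [mem_P]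
    refine ⟨h3, ?_, h4⟩
    have h6 := Nat.le_of_dvd (nm_pos ha) (map_dvd Ideal.absNorm h5)
    have h7 : (Ideal.absNorm l : ℝ) ≤ (Ideal.absNorm a : ℝ) := by exact_mod_cast h6
    linarith
  refine le_trans ?_ (sum_le_sum_of_subset_of_nonneg hsub ?_)
  · apply sum_le_sum
    intro l hl
    obtain ⟨h3, h4, h5⟩ := hmem l hl
    have h10 : l ^ F.count l ∣ a := by
      conv_rhs => rw [← h1]
      exact dvd_prod_of_mem (fun l => l ^ F.count l) hl
    have h11 : F.count l ≤ J := by
      have h12 := Nat.le_of_dvd (nm_pos ha) (map_dvd Ideal.absNorm h10)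
      rw [map_pow] at h12
      have h13 : 2 ^ F.count l ≤ Ideal.absNorm a :=
        (Nat.pow_le_pow_left (nm_two h3 h4) _).trans h12
      have h14 : (2 : ℝ) ^ F.count l < 2 ^ (J + 1) := by
        have : ((2 ^ F.count l : ℕ) : ℝ) ≤ (Ideal.absNorm a : ℝ) := by exact_mod_cast h13
        push_cast at this
        linarith
      have := (pow_lt_pow_iff_right₀ (by norm_num : (1 : ℝ) < 2)).1 h14
      omega
    have hlog : 0 ≤ Real.log (Ideal.absNorm l) := Real.log_natCast_nonneg _
    rw [← sum_filter, sum_const, nsmul_eq_mul]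
    apply mul_le_mul_of_nonneg_right _ hlog
    have h15 : Icc 1 (F.count l) ⊆ (Icc 1 J).filter fun j => l ^ j ∣ a := by
      intro j hj
      rw [mem_Icc] at hj
      rw [mem_filter, mem_Icc]
      exact ⟨⟨hj.1, hj.2.trans h11⟩, (pow_dvd_pow l hj.2).trans h10⟩
    have h16 := card_le_card h15
    rw [Nat.card_Icc] at h16
    exact_mod_cast (by omega : F.count l ≤ _)
  · intro l _ _
    apply sum_nonneg
    intro j _
    split_ifs
    · exact Real.log_natCast_nonneg _
    · exact le_rfl

/-- `∑ log N a` over all ideals, from above -/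
theorem sum_log_le (x : ℝ) (J : ℕ) (hJ : x < 2 ^ (J + 1)) :
    ∑ a ∈ S K x, Real.log (Ideal.absNorm a) ≤
      ∑ l ∈ P K x, Real.log (Ideal.absNorm l) *
        ∑ j ∈ Icc 1 J, cnt K (x / (Ideal.absNorm l : ℝ) ^ j) := by
  classical
  calc ∑ a ∈ S K x, Real.log (Ideal.absNorm a)
      ≤ ∑ a ∈ S K x, ∑ l ∈ P K x, ∑ j ∈ Icc 1 J,
          if l ^ j ∣ a then Real.log (Ideal.absNorm l) else 0 := by
        apply sum_le_sum
        intro a ha
        rw [mem_S] at ha
        exact log_le ha.1 x ha.2 J hJ
    _ = ∑ l ∈ P K x, ∑ j ∈ Icc 1 J, ∑ a ∈ S K x,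
          if l ^ j ∣ a then Real.log (Ideal.absNorm l) else 0 := by
        rw [sum_comm]
        apply sum_congr rfl
        intro l _
        rw [sum_comm]
    _ = _ := by
        apply sum_congr rfl
        intro l hl
        rw [mem_P] at hl
        rw [mul_sum]
        apply sum_congr rfl
        intro j _
        have h1 : l ^ j ≠ ⊥ := pow_ne_zero (M₀ := Ideal (𝓞 K)) j hl.1
        have h2 := card_dvd h1 x
        rw [map_pow] at h2
        push_cast at h2
        rw [← h2, ← sum_filter, sum_const, nsmul_eq_mul, mul_comm]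

end Pool.Agent.GenP
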