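import Pool.Agent.GenP.Cheb

/-!
Grouping the prime ideals by the rational primes below them.
-/

set_option autoImplicit false

namespace Pool.Agent.GenP

open Finset NumberField

variable {K : Type*} [Field K] [NumberField K]

open Classical in
/-- a rational prime below `l` -/
noncomputable def un (l : Ideal (𝓞 K)) : ℕ :=
  if h : l ≠ ⊥ ∧ l.IsPrime then (exists_under h.1 h.2).choose else 0

theorem un_spec {l : Ideal (𝓞 K)} (hl : l ≠ ⊥) (hp : l.IsPrime) :
    (un l).Prime ∧ l ∣ Ideal.span {((un l : ℕ) : 𝓞 K)} ∧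
      ∃ f : ℕ, 1 ≤ f ∧ Ideal.absNorm l = (un l) ^ f := by
  have h : l ≠ ⊥ ∧ l.IsPrime := ⟨hl, hp⟩
  unfold un
  rw [dif_pos h]
  exact (exists_under h.1 h.2).choose_spec

theorem un_le {l : Ideal (𝓞 K)} (hl : l ≠ ⊥) (hp : l.IsPrime) : un l ≤ Ideal.absNorm l := by
  obtain ⟨h1, _, f, hf, h2⟩ := un_spec hl hp
  rw [h2]
  exact Nat.le_self_pow (by omega) _

/-- the prime ideals over one rational prime -/
theorem over_p (x : ℝ) {p : ℕ} (hp : p.Prime) :
    ∑ l ∈ (P K x).filter (fun l => un l = p), Real.log (Ideal.absNorm l) ≤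
      (Module.finrank ℤ (𝓞 K) : ℝ) * Real.log p := by
  classical
  have ha : Ideal.span {((p : ℕ) : 𝓞 K)} ≠ ⊥ := by
    rw [Ne, Ideal.span_singleton_eq_bot]
    exact_mod_cast hp.ne_zero
  have h1 := log_ge ha x
  rw [Ideal.absNorm_span_singleton, Algebra.norm_natCast, Int.natAbs_pow, Int.natAbs_natCast] at h1
  push_cast at h1
  rw [Real.log_pow] at h1
  refine le_trans ?_ h1
  apply sum_le_sum_of_subset_of_nonneg
  · intro l hl
    rw [mem_filter, mem_P] at hl
    rw [mem_filter, mem_P]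
    refine ⟨hl.1, ?_⟩
    have := (un_spec hl.1.1 hl.1.2.2).2.1
    rw [hl.2] at this
    exact this
  · intro l _ _
    exact Real.log_natCast_nonneg _

theorem group (x : ℝ) (g : ℕ → ℝ) (hg : ∀ m, 0 ≤ g m) :
    ∑ l ∈ P K x, Real.log (Ideal.absNorm l) * g (un l) ≤
      (Module.finrank ℤ (𝓞 K) : ℝ) * ∑ p ∈ rp x, Real.log p * g p := by
  have h1 : ∀ l ∈ P K x, un l ∈ rp x := by
    intro l hl
    rw [mem_P] at hl
    rw [mem_rp]
    refine ⟨(un_spec hl.1 hl.2.2).1, ?_⟩
    have : ((un l : ℕ) : ℝ) ≤ (Ideal.absNorm l : ℝ) := by exact_mod_cast un_le hl.1 hl.2.2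
    linarith [hl.2.1]
  rw [← sum_fiberwise_of_maps_to h1, mul_sum]
  apply sum_le_sum
  intro p hp
  rw [mem_rp] at hp
  have h2 := over_p (K := K) x hp.1
  calc ∑ l ∈ (P K x).filter (fun l => un l = p), Real.log (Ideal.absNorm l) * g (un l)
      = (∑ l ∈ (P K x).filter (fun l => un l = p), Real.log (Ideal.absNorm l)) * g p := by
        rw [sum_mul]
        apply sum_congr rfl
        intro l hl
        rw [mem_filter] at hl
        rw [hl.2]
    _ ≤ ((Module.finrank ℤ (𝓞 K) : ℝ) * Real.log p) * g p :=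
        mul_le_mul_of_nonneg_right h2 (hg p)
    _ = _ := by ring

theorem ph_interval (K : Type*) [Field K] [NumberField K] : ∃ C : ℝ, 0 ≤ C ∧
    ∀ y x : ℝ, 1 ≤ y → y ≤ x → ph K x ≤ ph K y + C * (Real.log (x / y) + 1) := by
  obtain ⟨C₀, hC₀, h0⟩ := log_sq
  set n : ℝ := (Module.finrank ℤ (𝓞 K) : ℝ) with hn
  have hn0 : 0 ≤ n := by positivity
  refine ⟨n * (8 + C₀), by positivity, ?_⟩
  intro y x hy hyx
  set g : ℕ → ℝ := fun m => (if y < (m : ℝ) then 1 / (m : ℝ) else 0) + 1 / (m : ℝ) ^ 2 with hg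
  have hg0 : ∀ m, 0 ≤ g m := by
    intro m
    simp only [hg]
    split_ifs <;> positivity
  have h1 := group (K := K) x g hg0
  have h2 : ph K x ≤ ph K y + ∑ l ∈ P K x, Real.log (Ideal.absNorm l) * g (un l) := by
    unfold ph
    have h3 : ∑ l ∈ P K y, Real.log (Ideal.absNorm l) / (Ideal.absNorm l : ℝ) =
        ∑ l ∈ P K x, if l ∈ P K y then Real.log (Ideal.absNorm l) / (Ideal.absNorm l : ℝ) else 0 := by
      classical
      rw [← sum_filter]
      apply sum_congr _ (fun _ _ => rfl)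
      ext l
      rw [mem_filter]
      exact ⟨fun h => ⟨P_mono hyx h, h⟩, fun h => h.2⟩
    rw [h3, ← sum_add_distrib]
    apply sum_le_sum
    intro l hl
    have hl' := mem_P.1 hl
    have hlog : 0 ≤ Real.log (Ideal.absNorm l) := Real.log_natCast_nonneg _
    by_cases h4 : l ∈ P K y
    · rw [if_pos h4]
      have := mul_nonneg hlog (hg0 (un l))
      linarith
    · rw [if_neg h4, zero_add, div_eq_mul_inv]
      apply mul_le_mul_of_nonneg_left _ hlog
      obtain ⟨h5, _, f, hf, h6⟩ := un_spec hl'.1 hl'.2.2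
      have h7 : y < (Ideal.absNorm l : ℝ) := by
        by_contra hcon
        exact h4 (mem_P.2 ⟨hl'.1, not_lt.1 hcon, hl'.2.2⟩)
      have h8 : (1 : ℝ) < (un l : ℝ) := by exact_mod_cast h5.one_lt
      rcases Nat.lt_or_ge f 2 with h9 | h9
      · have hf1 : f = 1 := by omega
        rw [hf1, pow_one] at h6
        simp only [hg]
        rw [if_pos (by rw [← h6]; exact h7), h6, ← one_div]
        have : (0 : ℝ) ≤ 1 / (un l : ℝ) ^ 2 := by positivity
        linarith
      · simp only [hg]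
        have h10 : ((un l : ℝ)) ^ 2 ≤ (Ideal.absNorm l : ℝ) := by
          rw [h6]
          push_cast
          exact pow_le_pow_right₀ h8.le h9
        have h11 : (Ideal.absNorm l : ℝ)⁻¹ ≤ 1 / (un l : ℝ) ^ 2 := by
          rw [← one_div]
          apply one_div_le_one_div_of_le (by positivity) h10
        have h12 : (0 : ℝ) ≤ if y < (un l : ℝ) then 1 / (un l : ℝ) else 0 := by
          split_ifs <;> positivity
        linarith
  have h3 : ∑ p ∈ rp x, Real.log p * g p ≤ 8 * (Real.log (x / y) + 1) + C₀ := by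
    simp only [hg, mul_add, sum_add_distrib]
    have h4 : ∑ p ∈ rp x, Real.log p * (if y < (p : ℝ) then 1 / (p : ℝ) else 0) =
        ∑ p ∈ (rp x).filter (fun p : ℕ => y < (p : ℝ)), Real.log p / (p : ℝ) := by
      rw [sum_filter]
      apply sum_congr rfl
      intro p _
      split_ifs <;> ring
    have h5 : ∑ p ∈ rp x, Real.log p * (1 / (p : ℝ) ^ 2) ≤ C₀ := by
      have := h0 (rp x)
      simpa [div_eq_mul_inv] using this
    rw [h4]
    have := interval hy hyx
    linarith
  have h4 : 0 ≤ Real.log (x / y) := by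
    apply Real.log_nonneg
    rw [le_div_iff₀ (by linarith)]
    linarith
  have h5 : n * ∑ p ∈ rp x, Real.log p * g p ≤ n * (8 * (Real.log (x / y) + 1) + C₀) :=
    mul_le_mul_of_nonneg_left h3 hn0
  have h6 : n * (8 * (Real.log (x / y) + 1) + C₀) ≤ n * (8 + C₀) * (Real.log (x / y) + 1) := by
    have : 0 ≤ n * C₀ * Real.log (x / y) := by positivity
    nlinarith
  linarith

theorem ph_sq (K : Type*) [Field K] [NumberField K] : ∃ C : ℝ, 0 ≤ C ∧
    ∀ x : ℝ, ∑ l ∈ P K x, Real.log (Ideal.absNorm l) / (Ideal.absNorm l : ℝ) ^ 2 ≤ C := by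
  obtain ⟨C₀, hC₀, h0⟩ := log_sq
  refine ⟨(Module.finrank ℤ (𝓞 K) : ℝ) * C₀, by positivity, ?_⟩
  intro x
  have h1 := group (K := K) x (fun m => 1 / (m : ℝ) ^ 2) (fun m => by positivity)
  refine le_trans ?_ (h1.trans ?_)
  · apply sum_le_sum
    intro l hl
    have hl' := mem_P.1 hl
    rw [div_eq_mul_inv, ← one_div]
    apply mul_le_mul_of_nonneg_left _ (Real.log_natCast_nonneg _)
    have h5 := (un_spec hl'.1 hl'.2.2).1
    have h8 : (0 : ℝ) < (un l : ℝ) := by exact_mod_cast h5.pos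
    have h9 : (un l : ℝ) ≤ (Ideal.absNorm l : ℝ) := by exact_mod_cast un_le hl'.1 hl'.2.2
    apply one_div_le_one_div_of_le (by positivity)
    exact pow_le_pow_left₀ h8.le h9 2
  · apply mul_le_mul_of_nonneg_left _ (by positivity)
    have := h0 (rp x)
    simpa [div_eq_mul_inv] using this

end Pool.Agent.GenP
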