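import Pool.Agent.GenP.Grp

/-!
Mertens' theorem for prime ideals: `ph K x / log x` tends to `1`.
-/

set_option autoImplicit false

namespace Pool.Agent.GenP

open Finset NumberField Filter Topology

variable {K : Type*} [Field K] [NumberField K]

theorem ph_nonneg (x : ℝ) : 0 ≤ ph K x := by
  unfold ph
  apply sum_nonneg
  intro l _
  have := Real.log_natCast_nonneg (Ideal.absNorm l)
  positivity

/-- upper bound for the sum of `log N a` -/
theorem sum_log_le_cnt {x : ℝ} :
    ∑ a ∈ S K x, Real.log (Ideal.absNorm a) ≤ Real.log x * cnt K x := by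
  unfold cnt
  rw [mul_comm, ← nsmul_eq_mul, ← sum_const]
  apply sum_le_sum
  intro a ha
  rw [mem_S] at ha
  apply Real.log_le_log _ ha.2
  exact_mod_cast nm_pos ha.1

/-- lower bound for the sum of `log N a` -/
theorem sum_log_ge_cnt {z x : ℝ} (hz : 1 ≤ z) (hzx : z ≤ x) :
    Real.log z * (cnt K x - cnt K z) ≤ ∑ a ∈ S K x, Real.log (Ideal.absNorm a) := by
  classical
  have h1 : cnt K x - cnt K z = ((S K x \ S K z).card : ℝ) := by
    unfold cnt
    rw [card_sdiff_of_subset (S_mono hzx), Nat.cast_sub (card_le_card (S_mono hzx))]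
  rw [h1, mul_comm, ← nsmul_eq_mul, ← sum_const]
  refine le_trans (sum_le_sum ?_) (sum_le_sum_of_subset_of_nonneg sdiff_subset ?_)
  · intro a ha
    have ha1 := mem_S.1 (Finset.mem_sdiff.1 ha).1
    have ha2 := (Finset.mem_sdiff.1 ha).2
    apply Real.log_le_log (by linarith)
    by_contra hcon
    exact ha2 (mem_S.2 ⟨ha1.1, (not_le.1 hcon).le⟩)
  · intro a _ _
    exact Real.log_natCast_nonneg _

theorem pow_tail {N x C : ℝ} (hN : 2 ≤ N) (hC : 0 ≤ C) (hx : 0 ≤ x) (f : ℝ → ℝ)
    (hf : ∀ y, 0 ≤ y → f y ≤ C * y) (J : ℕ) :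
    ∑ j ∈ Icc 1 J, f (x / N ^ j) ≤ max (f (x / N)) 0 + 2 * C * x / N ^ 2 := by
  have key : ∀ J : ℕ, ∑ j ∈ Icc 1 (J + 1), f (x / N ^ j) ≤
      f (x / N) + C * x * (2 / N ^ 2 - 2 / N ^ (J + 2)) := by
    intro J
    induction J with
    | zero => simp
    | succ J ih =>
      rw [sum_Icc_succ_top (by omega)]
      have h1 := hf (x / N ^ (J + 1 + 1)) (by positivity)
      have h2 : C * (x / N ^ (J + 1 + 1)) ≤
          C * x * (2 / N ^ (J + 2) - 2 / N ^ (J + 1 + 2)) := by
        have h3 : (1 : ℝ) / N ^ (J + 2) ≤ 2 / N ^ (J + 2) - 2 / N ^ (J + 1 + 2) := by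
          have h4 : 2 / N ^ (J + 1 + 2) ≤ 1 / N ^ (J + 2) := by
            rw [div_le_div_iff₀ (by positivity) (by positivity)]
            have : N ^ (J + 1 + 2) = N ^ (J + 2) * N := by ring
            rw [this]
            have h5 : 0 < N ^ (J + 2) := by positivity
            nlinarith
          have h6 : (2 : ℝ) / N ^ (J + 2) = 1 / N ^ (J + 2) + 1 / N ^ (J + 2) := by ring
          linarith
        have h7 : C * (x / N ^ (J + 1 + 1)) = C * x * (1 / N ^ (J + 2)) := by ring
        rw [h7]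
        exact mul_le_mul_of_nonneg_left h3 (by positivity)
      have h8 : C * x * (2 / N ^ 2 - 2 / N ^ (J + 2)) + C * x * (2 / N ^ (J + 2) - 2 / N ^ (J + 1 + 2))
          = C * x * (2 / N ^ 2 - 2 / N ^ (J + 1 + 2)) := by ring
      linarith
  have h0 : 0 ≤ 2 * C * x / N ^ 2 := by positivity
  rcases J with _ | J
  · simp only [Icc_eq_empty_of_lt (by norm_num : (0:ℕ) < 1), sum_empty]
    have := le_max_right (f (x / N)) 0
    linarith
  · refine (key J).trans ?_
    have h1 := le_max_left (f (x / N)) 0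
    have h2 : C * x * (2 / N ^ 2 - 2 / N ^ (J + 2)) ≤ 2 * C * x / N ^ 2 := by
      have h3 : 0 ≤ C * x * (2 / N ^ (J + 2)) := by positivity
      have h4 : C * x * (2 / N ^ 2) = 2 * C * x / N ^ 2 := by ring
      nlinarith
    linarith

theorem up (K : Type*) [Field K] [NumberField K] {ε : ℝ} (hε : 0 < ε) (hε1 : ε ≤ 1) :
    ∀ᶠ z : ℝ in atTop, ph K z ≤ (1 + ε) * Real.log z := by
  obtain ⟨κ, hκ, h⟩ := cnt_tendsto K
  set η : ℝ := κ * ε / 16 with hη
  have hη0 : 0 < η := by positivity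
  have h1 : ∀ᶠ x : ℝ in atTop, κ - η ≤ cnt K x / x ∧ cnt K x / x ≤ κ + η := by
    have ha := h.eventually (lt_mem_nhds (sub_lt_self κ hη0))
    have hb := h.eventually (gt_mem_nhds (lt_add_of_pos_right κ hη0))
    filter_upwards [ha, hb] with x ha hb using ⟨ha.le, hb.le⟩
  obtain ⟨X, hX⟩ := eventually_atTop.1 h1
  have hδ : 0 < ε / 4 := by positivity
  filter_upwards [(tendsto_rpow_atTop hδ).eventually_ge_atTop (max X 1), eventually_ge_atTop (max X 2)]
    with z hz1 hz2
  have hz : 2 ≤ z := (le_max_right _ _).trans hz2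
  have hz0 : 0 < z := by linarith
  set x : ℝ := z * z ^ (ε / 4) with hx
  have hzx : z ≤ x := by
    have : 1 ≤ z ^ (ε / 4) := (le_max_right _ _).trans hz1
    nlinarith
  have hx0 : 0 < x := by linarith
  have hlogx : Real.log x = (1 + ε / 4) * Real.log z := by
    rw [hx, Real.log_mul (by positivity) (by positivity), Real.log_rpow hz0]; ring
  have hXx := hX x (((le_max_left _ _).trans hz2).trans hzx)
  have h2 : (κ - η) * x * ph K z ≤
      ∑ l ∈ P K z, Real.log (Ideal.absNorm l) * cnt K (x / (Ideal.absNorm l : ℝ)) := by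
    unfold ph
    rw [mul_sum]
    apply sum_le_sum
    intro l hl
    rw [mem_P] at hl
    have hN : (0 : ℝ) < (Ideal.absNorm l : ℝ) := by exact_mod_cast nm_pos hl.1
    have h3 : X ≤ x / (Ideal.absNorm l : ℝ) := by
      rw [le_div_iff₀ hN]
      have h4 : X ≤ z ^ (ε / 4) := (le_max_left _ _).trans hz1
      have h5 : 0 < z ^ (ε / 4) := by positivity
      calc X * (Ideal.absNorm l : ℝ) ≤ z ^ (ε / 4) * (Ideal.absNorm l : ℝ) := by gcongr
        _ ≤ z ^ (ε / 4) * z := by gcongr; exact hl.2.1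
        _ = x := by rw [hx]; ring
    have h6 := (hX _ h3).1
    rw [le_div_iff₀ (by positivity)] at h6
    have h7 := mul_le_mul_of_nonneg_left h6 (Real.log_natCast_nonneg (Ideal.absNorm l))
    calc _ = Real.log (Ideal.absNorm l) * ((κ - η) * (x / (Ideal.absNorm l : ℝ))) := by ring
      _ ≤ _ := h7
  have h3 := sum_log_ge (K := K) x z
  have h4 := sum_log_le_cnt (K := K) (x := x)
  have h5 : cnt K x ≤ (κ + η) * x := by
    have := hXx.2
    rwa [div_le_iff₀ hx0] at this
  have hlx : 0 ≤ Real.log x := Real.log_nonneg (by linarith)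
  have hlz : 0 ≤ Real.log z := Real.log_nonneg (by linarith)
  have h6 : (κ - η) * x * ph K z ≤ Real.log x * ((κ + η) * x) :=
    h2.trans (h3.trans (h4.trans (mul_le_mul_of_nonneg_left h5 hlx)))
  have h7 : (κ - η) * ph K z ≤ Real.log x * (κ + η) := by
    have h8 : x * ((κ - η) * ph K z) ≤ x * (Real.log x * (κ + η)) := by linarith
    exact le_of_mul_le_mul_left h8 hx0
  rw [hlogx] at h7
  have h9 : (1 - ε / 16) * ph K z ≤ (1 + ε / 4) * Real.log z * (1 + ε / 16) := by
    have h8 : κ * ((1 - ε / 16) * ph K z) ≤ κ * ((1 + ε / 4) * Real.log z * (1 + ε / 16)) := by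
      rw [hη] at h7
      linarith
    exact le_of_mul_le_mul_left h8 hκ
  have h10 : (1 + ε / 4) * Real.log z * (1 + ε / 16) ≤ (1 - ε / 16) * ((1 + ε) * Real.log z) := by
    have h11 : (1 + ε / 4) * (1 + ε / 16) ≤ (1 - ε / 16) * (1 + ε) := by nlinarith
    have := mul_le_mul_of_nonneg_right h11 hlz
    linarith
  exact le_of_mul_le_mul_left (h9.trans h10) (by linarith)

theorem lo (K : Type*) [Field K] [NumberField K] {ε : ℝ} (hε : 0 < ε) (hε1 : ε ≤ 1) :
    ∀ᶠ z : ℝ in atTop, (1 - ε) * Real.log z ≤ ph K z := by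
  obtain ⟨κ, hκ, h⟩ := cnt_tendsto K
  obtain ⟨C, hC1, hC⟩ := cnt_le K
  obtain ⟨C₁, hC₁, hint⟩ := ph_interval K
  obtain ⟨C₂, hC₂, hsq⟩ := ph_sq K
  set η : ℝ := κ * ε / 8 with hη
  have hη0 : 0 < η := by positivity
  have h1 : ∀ᶠ x : ℝ in atTop, κ - η ≤ cnt K x / x ∧ cnt K x / x ≤ κ + η := by
    have ha := h.eventually (lt_mem_nhds (sub_lt_self κ hη0))
    have hb := h.eventually (gt_mem_nhds (lt_add_of_pos_right κ hη0))
    filter_upwards [ha, hb] with x ha hb using ⟨ha.le, hb.le⟩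
  obtain ⟨X, hX⟩ := eventually_atTop.1 h1
  set δ : ℝ := κ * ε / (8 * (C * C₁ + 1)) with hδ
  have hδ0 : 0 < δ := by positivity
  have hδ2 : C * C₁ * δ ≤ κ * ε / 8 := by
    rw [hδ, mul_div_assoc', div_le_div_iff₀ (by positivity) (by norm_num)]
    have : 0 ≤ κ * ε := by positivity
    nlinarith [mul_nonneg (by linarith : (0:ℝ) ≤ C) hC₁]
  have hY : ∀ᶠ z : ℝ in atTop, C * C₁ + 2 * C * C₂ ≤ κ * ε / 8 * Real.log z := by
    have : Tendsto (fun z : ℝ => κ * ε / 8 * Real.log z) atTop atTop :=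
      Real.tendsto_log_atTop.const_mul_atTop (by positivity)
    exact this.eventually_ge_atTop _
  filter_upwards [(tendsto_rpow_atTop hδ0).eventually_ge_atTop (max (max X 1) (C / (κ * ε / 8))),
    eventually_ge_atTop (max X 2), hY] with z hz1 hz2 hz3
  have hz : 2 ≤ z := (le_max_right _ _).trans hz2
  have hz0 : 0 < z := by linarith
  have hw1 : 1 ≤ z ^ δ := ((le_max_right _ _).trans (le_max_left _ _)).trans hz1
  have hwX : X ≤ z ^ δ := ((le_max_left _ _).trans (le_max_left _ _)).trans hz1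
  have hwC : C / (κ * ε / 8) ≤ z ^ δ := (le_max_right _ _).trans hz1
  have hw0 : 0 < z ^ δ := by linarith
  set x : ℝ := z * z ^ δ with hx
  have hzx : z ≤ x := by nlinarith
  have hx0 : 0 < x := by linarith
  have hxz : x / z = z ^ δ := by rw [hx]; field_simp
  have hlogxz : Real.log (x / z) = δ * Real.log z := by rw [hxz, Real.log_rpow hz0]
  have hXx := hX x (((le_max_left _ _).trans hz2).trans hzx)
  have hlz : 0 ≤ Real.log z := Real.log_nonneg (by linarith)
  -- lower bound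
  have h2 := sum_log_ge_cnt (K := K) (by linarith : (1 : ℝ) ≤ z) hzx
  have h3 : (κ - η) * x ≤ cnt K x := by
    have := hXx.1
    rwa [le_div_iff₀ hx0] at this
  have h4 := hC z hz0.le
  have h5 : C * z ≤ κ * ε / 8 * x := by
    rw [div_le_iff₀ (by positivity)] at hwC
    rw [hx]
    nlinarith
  have h6 : Real.log z * ((κ - η - κ * ε / 8) * x) ≤ ∑ a ∈ S K x, Real.log (Ideal.absNorm a) := by
    refine le_trans (mul_le_mul_of_nonneg_left ?_ hlz) h2
    linarith
  -- upper bound
  have h7 := sum_log_le (K := K) x ⌊x⌋₊ (by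
    calc x < (⌊x⌋₊ : ℝ) + 1 := Nat.lt_floor_add_one x
      _ ≤ 2 ^ (⌊x⌋₊ + 1) := by
        have : ⌊x⌋₊ + 1 ≤ 2 ^ (⌊x⌋₊ + 1) := Nat.lt_two_pow_self.le
        exact_mod_cast this)
  have h8 : ∑ l ∈ P K x, Real.log (Ideal.absNorm l) *
        ∑ j ∈ Icc 1 ⌊x⌋₊, cnt K (x / (Ideal.absNorm l : ℝ) ^ j) ≤
      ∑ l ∈ P K x, Real.log (Ideal.absNorm l) * cnt K (x / (Ideal.absNorm l : ℝ)) +
        2 * C * x * ∑ l ∈ P K x, Real.log (Ideal.absNorm l) / (Ideal.absNorm l : ℝ) ^ 2 := by
    rw [mul_sum, ← sum_add_distrib]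
    apply sum_le_sum
    intro l hl
    rw [mem_P] at hl
    have hN : (2 : ℝ) ≤ (Ideal.absNorm l : ℝ) := by exact_mod_cast nm_two hl.1 hl.2.2
    have h9 := pow_tail (x := x) hN (by linarith : (0 : ℝ) ≤ C) hx0.le (cnt K) hC ⌊x⌋₊
    rw [max_eq_left (cnt_nonneg _)] at h9
    have h10 := mul_le_mul_of_nonneg_left h9 (Real.log_natCast_nonneg (Ideal.absNorm l))
    calc _ ≤ _ := h10
      _ = _ := by ring
  have h9 : ∑ l ∈ P K x, Real.log (Ideal.absNorm l) * cnt K (x / (Ideal.absNorm l : ℝ)) ≤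
      (κ + η) * x * ph K z + C * x * (ph K x - ph K z) := by
    classical
    have h10 : ph K x - ph K z =
        ∑ l ∈ P K x \ P K z, Real.log (Ideal.absNorm l) / (Ideal.absNorm l : ℝ) := by
      unfold ph
      rw [← sum_sdiff (P_mono hzx)]
      ring
    rw [h10, ← sum_sdiff (P_mono hzx), add_comm]
    apply add_le_add
    · unfold ph
      rw [mul_sum]
      apply sum_le_sum
      intro l hl
      rw [mem_P] at hl
      have hN : (0 : ℝ) < (Ideal.absNorm l : ℝ) := by exact_mod_cast nm_pos hl.1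
      have h3 : X ≤ x / (Ideal.absNorm l : ℝ) := by
        rw [le_div_iff₀ hN]
        calc X * (Ideal.absNorm l : ℝ) ≤ z ^ δ * (Ideal.absNorm l : ℝ) := by gcongr
          _ ≤ z ^ δ * z := by gcongr; exact hl.2.1
          _ = x := by rw [hx]; ring
      have h6 := (hX _ h3).2
      rw [div_le_iff₀ (by positivity)] at h6
      have h7 := mul_le_mul_of_nonneg_left h6 (Real.log_natCast_nonneg (Ideal.absNorm l))
      calc _ ≤ _ := h7
        _ = _ := by ring
    · rw [mul_sum]
      apply sum_le_sum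
      intro l hl
      have hl1 := mem_P.1 (Finset.mem_sdiff.1 hl).1
      have hN : (0 : ℝ) < (Ideal.absNorm l : ℝ) := by exact_mod_cast nm_pos hl1.1
      have h7 := mul_le_mul_of_nonneg_left (hC (x / (Ideal.absNorm l : ℝ)) (by positivity))
        (Real.log_natCast_nonneg (Ideal.absNorm l))
      calc _ ≤ _ := h7
        _ = _ := by ring
  have h10 : ph K x - ph K z ≤ C₁ * (δ * Real.log z + 1) := by
    have := hint z x (by linarith) hzx
    rw [hlogxz] at this
    linarith
  have h11 := hsq x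
  have h12 : Real.log z * ((κ - η - κ * ε / 8) * x) ≤
      (κ + η) * x * ph K z + C * x * (C₁ * (δ * Real.log z + 1)) + 2 * C * x * C₂ := by
    have h13 : C * x * (ph K x - ph K z) ≤ C * x * (C₁ * (δ * Real.log z + 1)) :=
      mul_le_mul_of_nonneg_left h10 (by positivity)
    have h14 : 2 * C * x * ∑ l ∈ P K x, Real.log (Ideal.absNorm l) / (Ideal.absNorm l : ℝ) ^ 2 ≤
        2 * C * x * C₂ := mul_le_mul_of_nonneg_left h11 (by positivity)
    linarith
  have h13 : Real.log z * (κ - η - κ * ε / 8) ≤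
      (κ + η) * ph K z + C * (C₁ * (δ * Real.log z + 1)) + 2 * C * C₂ := by
    have h14 : x * (Real.log z * (κ - η - κ * ε / 8)) ≤
      x * ((κ + η) * ph K z + C * (C₁ * (δ * Real.log z + 1)) + 2 * C * C₂) := by linarith
    exact le_of_mul_le_mul_left h14 hx0
  have h14 : C * (C₁ * (δ * Real.log z + 1)) ≤ κ * ε / 8 * Real.log z + C * C₁ := by
    have := mul_le_mul_of_nonneg_right hδ2 hlz
    linarith
  have h15 : κ * ((1 - ε / 2) * Real.log z) ≤ κ * ((1 + ε / 8) * ph K z) := by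
    rw [hη] at h13
    linarith
  have h16 := le_of_mul_le_mul_left h15 hκ
  have h17 : (1 + ε / 8) * ((1 - ε) * Real.log z) ≤ (1 - ε / 2) * Real.log z := by
    have h18 : (1 + ε / 8) * (1 - ε) ≤ 1 - ε / 2 := by nlinarith
    have := mul_le_mul_of_nonneg_right h18 hlz
    linarith
  exact le_of_mul_le_mul_left (h17.trans h16) (by positivity)

end Pool.Agent.GenP
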